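import Pool.Agent.K3h26.R6.Stm

/-!
# Project R6 (helper26), brick HX: mean over the hexagonal faces, every dimension (helper58)
-/

set_option autoImplicit false

open Filter Topology

namespace Pool.Agent.K3h58.R6

open Pool.Agent.K3h26.R6

variable {p : ℕ}

theorem yy_zero (v : Fin (p + 5) → ℝ) : yy v 0 = v 3 := rfl

theorem yy_one (v : Fin (p + 5) → ℝ) : yy v 1 = v 4 := rfl

/-- the first three coordinates vanish -/
def Z3 (m : Fin (p + 5) → ℝ) : Prop := m 0 = 0 ∧ m 1 = 0 ∧ m 2 = 0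

theorem nq_lt {v : Fin (p + 5) → ℝ} {r : ℝ} (hr : 0 < r) : nq v < r ↔ ∀ l, |yy v l| < r := by
  unfold nq
  rw [pi_norm_lt_iff hr]
  simp only [Real.norm_eq_abs]

theorem z3_eq_zero {L : AddSubgroup (Fin (p + 5) → ℝ)} (hT : IsT L) {m : Fin (p + 5) → ℝ}
    (hm : m ∈ L) (h : Z3 m) (h3 : ∀ l, |yy m l| < 1) : m = 0 := by
  by_contra hne
  obtain ⟨a, b, c⟩ := h
  rcases hT.1 m hm hne with h1 | h1 | h1
  · unfold n1 at h1
    rw [a, b, c, abs_zero] at h1
    norm_num at h1
  · unfold ni at h1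
    rw [a, b, c, abs_zero, max_self, max_self] at h1
    norm_num at h1
  · exact absurd h1 (not_le.mpr ((nq_lt one_pos).2 h3))

theorem round_le {x : ℝ} (hx : |x| ≤ 26 / 10) : |((round x : ℤ) : ℝ)| ≤ 3 := by
  have h5 := abs_sub_round x
  have h6 : |((round x : ℤ) : ℝ)| < 4 := by
    have h7 : ((round x : ℤ) : ℝ) = x - (x - round x) := by ring
    rw [h7]
    have h8 := abs_sub x (x - round x)
    linarith
  have h7 : |round x| < 4 := by
    have h8 : ((|round x| : ℤ) : ℝ) < ((4 : ℤ) : ℝ) := by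
      rw [Int.cast_abs]
      exact_mod_cast h6
    exact_mod_cast h8
  have h8 : |round x| ≤ 3 := by omega
  have h9 : ((|round x| : ℤ) : ℝ) ≤ ((3 : ℤ) : ℝ) := by exact_mod_cast h8
  rw [Int.cast_abs] at h9
  exact_mod_cast h9

theorem near_int {L : AddSubgroup (Fin (p + 5) → ℝ)} (hT : IsT L) {E : ℝ} (hE : E < 1 / 2)
    (η : ℝ) (hη : 6 * ((p : ℝ) + 2) * η ≤ E)
    {mm : Fin (p + 2) → Fin (p + 5) → ℝ} (hmL : ∀ l, mm l ∈ L) (hmZ : ∀ l, Z3 (mm l))
    (hcl : ∀ l l', |yy (mm l) l' - (if l = l' then 1 else 0)| ≤ 2 * η)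
    {m : Fin (p + 5) → ℝ} (hm : m ∈ L) (hZ : Z3 m) (hb : ∀ l, |yy m l| ≤ 26 / 10) :
    ∀ l, |yy m l - (round (yy m l) : ℤ)| ≤ E := by
  set i : Fin (p + 2) → ℤ := fun l => round (yy m l) with hi
  have hi3 : ∀ l, |((i l : ℤ) : ℝ)| ≤ 3 := fun l => round_le (hb l)
  have hir : ∀ l, |yy m l - (i l : ℤ)| ≤ 1 / 2 := fun l => abs_sub_round _
  set m' : Fin (p + 5) → ℝ := m - ∑ l, i l • mm l with hm'
  have hcoord : ∀ k, m' k = m k - ∑ l, (i l : ℝ) * mm l k := by
    intro k
    rw [hm', Pi.sub_apply, Finset.sum_apply]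
    congr 1
    exact Finset.sum_congr rfl fun l _ => by rw [Pi.smul_apply, zsmul_eq_mul]
  have hyy : ∀ l', yy m' l' = (yy m l' - i l') -
      ∑ l, (i l : ℝ) * (yy (mm l) l' - (if l = l' then 1 else 0)) := by
    intro l'
    have h1 : yy m' l' = yy m l' - ∑ l, (i l : ℝ) * yy (mm l) l' := hcoord _
    have h2 : ∑ l, (i l : ℝ) * (yy (mm l) l' - (if l = l' then 1 else 0)) =
        ∑ l, (i l : ℝ) * yy (mm l) l' - i l' := by
      simp only [mul_sub, Finset.sum_sub_distrib, mul_ite, mul_one, mul_zero,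
        Finset.sum_ite_eq', Finset.mem_univ, if_true]
    rw [h1, h2]
    ring
  have herr : ∀ l', |∑ l, (i l : ℝ) * (yy (mm l) l' - (if l = l' then 1 else 0))| ≤ E := by
    intro l'
    refine (Finset.abs_sum_le_sum_abs _ _).trans ?_
    have h1 : ∀ l ∈ (Finset.univ : Finset (Fin (p + 2))),
        |(i l : ℝ) * (yy (mm l) l' - (if l = l' then 1 else 0))| ≤ 3 * (2 * η) := by
      intro l _
      rw [abs_mul]
      exact mul_le_mul (hi3 l) (hcl l l') (abs_nonneg _) (by norm_num)
    refine (Finset.sum_le_sum h1).trans ?_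
    rw [Finset.sum_const, Finset.card_univ, Fintype.card_fin, nsmul_eq_mul]
    push_cast
    linarith
  have hz : m' = 0 := by
    refine z3_eq_zero hT (L.sub_mem hm (L.sum_mem fun l _ => L.zsmul_mem (hmL l) _)) ?_ ?_
    · obtain ⟨a, b, c⟩ := hZ
      refine ⟨?_, ?_, ?_⟩
      · rw [hcoord, a, Finset.sum_eq_zero fun l _ => by rw [(hmZ l).1, mul_zero], sub_zero]
      · rw [hcoord, b, Finset.sum_eq_zero fun l _ => by rw [(hmZ l).2.1, mul_zero], sub_zero]
      · rw [hcoord, c, Finset.sum_eq_zero fun l _ => by rw [(hmZ l).2.2, mul_zero], sub_zero]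
    · intro l
      rw [hyy, abs_lt]
      have h1 := abs_le.1 (hir l)
      have h2 := abs_le.1 (herr l)
      constructor <;> linarith
  intro l
  have h5 : yy m' l = 0 := by rw [hz]; rfl
  rw [hyy] at h5
  have h2 := herr l
  have h6 : yy m l - i l = ∑ l', (i l' : ℝ) * (yy (mm l') l - (if l' = l then 1 else 0)) := by
    linarith
  change |yy m l - (i l : ℤ)| ≤ E
  rw [h6]
  exact h2

/-- a number of absolute value less than one whose double is near a half-integer -/
theorem near_quarter {x κ : ℝ} {i : ℤ} (hx : |x| < 1) (hκ : κ ≤ 1 / 100)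
    (h : |2 * x - 1 / 2 - i| ≤ 2 * κ) : abs (|x| - 1 / 4) ≤ κ ∨ abs (|x| - 3 / 4) ≤ κ := by
  rw [abs_lt] at hx
  rw [abs_le] at h
  have h1 : (-3 : ℤ) < i := by
    have h2 : ((-3 : ℤ) : ℝ) < (i : ℝ) := by
      push_cast
      linarith
    exact_mod_cast h2
  have h2 : i < 2 := by
    have h3 : (i : ℝ) < ((2 : ℤ) : ℝ) := by
      push_cast
      linarith
    exact_mod_cast h3
  have h3 : i = -2 ∨ i = -1 ∨ i = 0 ∨ i = 1 := by omega
  rcases h3 with rfl | rfl | rfl | rfl
  · right
    push_cast at h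
    rw [abs_of_neg (by linarith : x < 0), abs_le]
    constructor <;> linarith
  · left
    push_cast at h
    rw [abs_of_neg (by linarith : x < 0), abs_le]
    constructor <;> linarith
  · left
    push_cast at h
    rw [abs_of_pos (by linarith : 0 < x), abs_le]
    constructor <;> linarith
  · right
    push_cast at h
    rw [abs_of_pos (by linarith : 0 < x), abs_le]
    constructor <;> linarith

/-- the masses of the patterns -/
noncomputable def G (κ : ℝ) (b : Bool) : ℝ := if b then 3 / 4 + κ else 1 / 4 + κ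

theorem sum_G (κ : ℝ) : ∑ b, G κ b = 1 + 2 * κ := by
  rw [Fintype.sum_bool]
  simp only [G, if_true]
  norm_num
  ring

theorem bad_sum (p : ℕ) (κ : ℝ) : ∑ b : Fin (p + 2) → Bool with ¬ (b 0 = true ∧ b 1 = true),
    ∏ l, G κ (b l) = (1 + 2 * κ) ^ p * ((1 + 2 * κ) ^ 2 - (3 / 4 + κ) ^ 2) := by
  classical
  have h1 : ∑ b : Fin (p + 2) → Bool, ∏ l, G κ (b l) = (1 + 2 * κ) ^ (p + 2) := by
    have := Finset.prod_univ_sum (fun _ : Fin (p + 2) => (Finset.univ : Finset Bool))
      (fun _ b => G κ b)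
    rw [Fintype.piFinset_univ] at this
    rw [← this]
    simp only [sum_G, Finset.prod_const, Finset.card_univ, Fintype.card_fin]
  let t : Fin (p + 2) → Finset Bool := fun l => if l = 0 ∨ l = 1 then {true} else Finset.univ
  have h2 : ∑ b : Fin (p + 2) → Bool with (b 0 = true ∧ b 1 = true), ∏ l, G κ (b l) =
      (3 / 4 + κ) ^ 2 * (1 + 2 * κ) ^ p := by
    have h3 := Finset.prod_univ_sum t (fun _ b => G κ b)
    have h4 : Fintype.piFinset t = Finset.univ.filter fun b : Fin (p + 2) → Bool =>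
        (b 0 = true ∧ b 1 = true) := by
      ext b
      rw [Fintype.mem_piFinset, Finset.mem_filter]
      constructor
      · intro h
        refine ⟨Finset.mem_univ _, ?_, ?_⟩
        · have := h 0
          simpa [t] using this
        · have := h 1
          simpa [t] using this
      · rintro ⟨-, h5, h6⟩ l
        by_cases hl : l = 0 ∨ l = 1
        · simp only [t, hl, if_true, Finset.mem_singleton]
          rcases hl with rfl | rfl
          · exact h5
          · exact h6
        · simp [t, hl]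
    rw [h4] at h3
    rw [← h3, Fin.prod_univ_succ, Fin.prod_univ_succ]
    have h5 : ∀ l : Fin p, t l.succ.succ = Finset.univ := by
      intro l
      have h6 : ¬ (l.succ.succ = (0 : Fin (p + 2)) ∨ l.succ.succ = (1 : Fin (p + 2))) := by
        rintro (h | h)
        · exact Fin.succ_ne_zero _ h
        · have h7 : l.succ.succ = (0 : Fin (p + 1)).succ := h
          exact Fin.succ_ne_zero _ (Fin.succ_injective _ h7)
      simp only [t, h6, if_false]
    have h0 : t 0 = {true} := by simp [t]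
    have h1' : t (Fin.succ 0) = {true} := by
      have : (Fin.succ 0 : Fin (p + 2)) = 1 := rfl
      rw [this]
      simp [t]
    simp only [h5, h0, h1', Finset.sum_singleton, sum_G, Finset.prod_const, Finset.card_univ,
      Fintype.card_fin]
    simp only [G, if_true]
    ring
  have h3 := Finset.sum_filter_add_sum_filter_not (Finset.univ : Finset (Fin (p + 2) → Bool))
    (fun b => b 0 = true ∧ b 1 = true) (fun b => ∏ l, G κ (b l))
  rw [h1, h2] at h3
  have h4 : (1 + 2 * κ) ^ (p + 2) = (1 + 2 * κ) ^ p * (1 + 2 * κ) ^ 2 := pow_add _ _ _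
  rw [h4] at h3
  linarith

/-- a small error -/
theorem exists_kappa (p : ℕ) : ∃ κ : ℝ, 0 < κ ∧ κ ≤ 1 / 100 ∧
    (1 + 2 * κ) ^ p * ((1 + 2 * κ) ^ 2 - (3 / 4 + κ) ^ 2) ≤ 46 / 100 := by
  have hc : Continuous fun κ : ℝ => (1 + 2 * κ) ^ p * ((1 + 2 * κ) ^ 2 - (3 / 4 + κ) ^ 2) := by
    fun_prop
  have h0 : (1 + 2 * (0 : ℝ)) ^ p * ((1 + 2 * 0) ^ 2 - (3 / 4 + 0) ^ 2) = 7 / 16 := by
    simp only [mul_zero, add_zero, one_pow, one_mul]
    norm_num
  have h1 : ∀ᶠ κ : ℝ in 𝓝 0,
      (1 + 2 * κ) ^ p * ((1 + 2 * κ) ^ 2 - (3 / 4 + κ) ^ 2) < 46 / 100 := by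
    have h2 := hc.tendsto 0
    rw [h0] at h2
    exact h2.eventually (gt_mem_nhds (by norm_num))
  have h2 : ∀ᶠ κ : ℝ in 𝓝 0, κ < 1 / 100 := gt_mem_nhds (by norm_num)
  obtain ⟨κ, ⟨h3, h4⟩, h5⟩ := (((h1.and h2).filter_mono nhdsWithin_le_nhds).and
    (self_mem_nhdsWithin (s := Set.Ioi (0 : ℝ)) (a := 0))).exists
  exact ⟨κ, h5, h4.le, h3.le⟩

theorem t_HX (_hSL : S_SL) (hMASS : S_MASS) : S_HX := by
  classical
  intro p
  obtain ⟨κ, hκ0, hκ1, hκ2⟩ := exists_kappa p
  have hq : (0 : ℝ) < (p : ℝ) + 2 := by positivity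
  refine ⟨κ / (12 * ((p : ℝ) + 2)), by positivity, ?_⟩
  intro L hT hsq a b c ha hb hc
  set η : ℝ := κ / (12 * ((p : ℝ) + 2)) with hηdef
  have hη1 : 6 * ((p : ℝ) + 2) * η = κ / 2 := by
    rw [hηdef]
    field_simp
    norm_num
  have hη0 : 0 < η := by positivity
  have hη2 : 24 * η ≤ κ := by
    have h1 : (2 : ℝ) ≤ (p : ℝ) + 2 := by
      have : (0 : ℝ) ≤ (p : ℝ) := Nat.cast_nonneg p
      linarith
    nlinarith
  have hpm : ∀ x : ℝ, |x| = 1 → x = 1 ∨ x = -1 := fun x hx => by
    rcases abs_choice x with h | h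
    · left
      linarith
    · right
      linarith
  -- the vectors over the square faces
  have hvec : ∀ (α β γ : ℝ), ((α = 2 ∧ β = 0 ∧ γ = 0) ∨ (α = 0 ∧ β = 2 ∧ γ = 0) ∨
      (α = 0 ∧ β = 0 ∧ γ = 2)) → ∀ t : ℝ, |t| = 1 → ∀ σ : Fin (p + 2) → ℝ,
      (∀ l, σ l = 1 ∨ σ l = -1) → ∃ v ∈ L, v 0 = t * α ∧ v 1 = t * β ∧ v 2 = t * γ ∧
        ∀ l, |yy v l - σ l / 2| ≤ η := by
    intro α β γ hcase t ht σ hσ
    rcases hpm t ht with rfl | rfl
    · obtain ⟨v, hv, h3⟩ := hsq α β γ hcase σ hσ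
      obtain ⟨hL, -, h0, h1, h2⟩ := hv
      exact ⟨v, hL, by rw [h0, one_mul], by rw [h1, one_mul], by rw [h2, one_mul], h3⟩
    · have hσ' : ∀ l, -σ l = 1 ∨ -σ l = -1 := by
        intro l
        rcases hσ l with h | h
        · right
          rw [h]
        · left
          rw [h]
          norm_num
      obtain ⟨v, hv, h3⟩ := hsq α β γ hcase (fun l => -σ l) hσ'
      obtain ⟨hL, -, h0, h1, h2⟩ := hv
      refine ⟨-v, L.neg_mem hL, ?_, ?_, ?_, fun l => ?_⟩
      · rw [Pi.neg_apply, h0]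
        ring
      · rw [Pi.neg_apply, h1]
        ring
      · rw [Pi.neg_apply, h2]
        ring
      · have e : yy (-v) l - σ l / 2 = -(yy v l - -σ l / 2) := by
          change -(yy v l) - σ l / 2 = _
          ring
        rw [e, abs_neg]
        exact h3 l
  -- the short vectors
  have hshort : ∀ l : Fin (p + 2), ∃ v ∈ L, Z3 v ∧
      ∀ l', |yy v l' - (if l = l' then 1 else 0)| ≤ 2 * η := by
    intro l
    obtain ⟨v1, v1L, v10, v11, v12, v13⟩ := hvec 2 0 0 (Or.inl ⟨rfl, rfl, rfl⟩) 1 abs_one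
      (fun _ => 1) (fun _ => Or.inl rfl)
    obtain ⟨v2, v2L, v20, v21, v22, v23⟩ := hvec 2 0 0 (Or.inl ⟨rfl, rfl, rfl⟩) 1 abs_one
      (fun l' => if l = l' then -1 else 1) (fun l' => by
        by_cases h : l = l'
        · right; simp [h]
        · left; simp [h])
    refine ⟨v1 - v2, L.sub_mem v1L v2L, ⟨?_, ?_, ?_⟩, fun l' => ?_⟩
    · rw [Pi.sub_apply, v10, v20, sub_self]
    · rw [Pi.sub_apply, v11, v21, sub_self]
    · rw [Pi.sub_apply, v12, v22, sub_self]
    · have h1 := abs_le.1 (v13 l')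
      have h2 := abs_le.1 (v23 l')
      have e : yy (v1 - v2) l' = yy v1 l' - yy v2 l' := rfl
      rw [e, abs_le]
      by_cases h : l = l'
      · simp only [h, if_true] at h2 ⊢
        constructor <;> linarith
      · simp only [h, if_false] at h2 ⊢
        constructor <;> linarith
  choose mm hmL hmZ hcl using hshort
  have key : ∀ m ∈ L, Z3 m → (∀ l, |yy m l| ≤ 26 / 10) →
      ∀ l, |yy m l - (round (yy m l) : ℤ)| ≤ κ / 2 := fun m hm hZ hb =>
    near_int hT (by linarith) η hη1.le hmL hmZ hcl hm hZ hb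
  -- the positions of the contacts
  obtain ⟨s1, s1L, s10, s11, s12, s13⟩ := hvec 2 0 0 (Or.inl ⟨rfl, rfl, rfl⟩) a ha
    (fun _ => 1) (fun _ => Or.inl rfl)
  obtain ⟨s2, s2L, s20, s21, s22, s23⟩ := hvec 0 2 0 (Or.inr (Or.inl ⟨rfl, rfl, rfl⟩)) b hb
    (fun _ => -1) (fun _ => Or.inr rfl)
  obtain ⟨s3, s3L, s30, s31, s32, s33⟩ := hvec 0 0 2 (Or.inr (Or.inr ⟨rfl, rfl, rfl⟩)) c hc
    (fun _ => 1) (fun _ => Or.inl rfl)
  have hpos : ∀ w ∈ WW L a b c, ∀ l,
      (abs (|yy w l| - 1 / 4) ≤ κ ∨ abs (|yy w l| - 3 / 4) ≤ κ) := by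
    rintro w ⟨wL, wmy, w0, w1, w2⟩ l
    have hw := (nq_lt one_pos).1 wmy
    have hmL : w + w - s1 - s2 - s3 ∈ L :=
      L.sub_mem (L.sub_mem (L.sub_mem (L.add_mem wL wL) s1L) s2L) s3L
    have hZ : Z3 (w + w - s1 - s2 - s3) := by
      refine ⟨?_, ?_, ?_⟩
      · simp only [Pi.sub_apply, Pi.add_apply, w0, s10, s20, s30]
        ring
      · simp only [Pi.sub_apply, Pi.add_apply, w1, s11, s21, s31]
        ring
      · simp only [Pi.sub_apply, Pi.add_apply, w2, s12, s22, s32]
        ring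
    have e : ∀ l, yy (w + w - s1 - s2 - s3) l = yy w l + yy w l - yy s1 l - yy s2 l - yy s3 l :=
      fun _ => rfl
    have h1 := key _ hmL hZ (fun l => by
      have hw' := abs_lt.1 (hw l)
      have t1 := abs_le.1 (s13 l)
      have t2 := abs_le.1 (s23 l)
      have t3 := abs_le.1 (s33 l)
      rw [e, abs_le]
      constructor <;> linarith) l
    refine near_quarter (i := round (yy (w + w - s1 - s2 - s3) l)) (hw l) hκ1 ?_
    have t1 := abs_le.1 (s13 l)
    have t2 := abs_le.1 (s23 l)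
    have t3 := abs_le.1 (s33 l)
    have h2 := abs_le.1 h1
    have h3 := e l
    rw [abs_le]
    constructor <;> linarith
  -- the masses
  have hmass : (WW L a b c).Finite ∧ ∑ᶠ v ∈ WW L a b c, mu v = 1 := by
    have h1 : ∃ i j k : ℤ, (a = 2 * i + k ∧ b = 2 * j + k ∧ c = k) := by
      rcases hpm a ha with rfl | rfl <;> rcases hpm b hb with rfl | rfl <;>
        rcases hpm c hc with rfl | rfl
      · exact ⟨0, 0, 1, by norm_num, by norm_num, by norm_num⟩
      · exact ⟨1, 1, -1, by norm_num, by norm_num, by norm_num⟩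
      · exact ⟨0, -1, 1, by norm_num, by norm_num, by norm_num⟩
      · exact ⟨1, 0, -1, by norm_num, by norm_num, by norm_num⟩
      · exact ⟨-1, 0, 1, by norm_num, by norm_num, by norm_num⟩
      · exact ⟨0, 1, -1, by norm_num, by norm_num, by norm_num⟩
      · exact ⟨-1, -1, 1, by norm_num, by norm_num, by norm_num⟩
      · exact ⟨0, 0, -1, by norm_num, by norm_num, by norm_num⟩
    obtain ⟨i, j, k, h2, h3, h4⟩ := h1
    have h5 := hMASS p L hT i j k
    rw [← h2, ← h3, ← h4] at h5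
    exact h5
  obtain ⟨hfin, hmu⟩ := hmass
  set S : Finset (Fin (p + 5) → ℝ) := hfin.toFinset with hS
  have hmem : ∀ v, v ∈ S ↔ v ∈ WW L a b c := fun v => hfin.mem_toFinset
  rw [finsum_mem_eq_finite_toFinset_sum _ hfin] at hmu
  unfold EE
  rw [finsum_mem_eq_finite_toFinset_sum _ hfin]
  change ∑ v ∈ S, mu v = 1 at hmu
  change ∑ v ∈ S, mu v * my v ≤ 49 / 100
  have hlt : ∀ v ∈ S, ∀ l, |yy v l| < 1 := fun v hv => (nq_lt one_pos).1 ((hmem v).1 hv).2.1
  have hmu0 : ∀ v ∈ S, 0 ≤ mu v := fun v hv =>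
    Finset.prod_nonneg fun l _ => by linarith [hlt v hv l]
  -- the patterns
  let β : (Fin (p + 5) → ℝ) → (Fin (p + 2) → Bool) := fun v l => decide (|yy v l| < 1 / 2)
  have hβ : Set.InjOn β S := by
    intro v hv v' hv' h
    obtain ⟨vL, -, v0, v1, v2⟩ := (hmem v).1 hv
    obtain ⟨wL, -, w0, w1, w2⟩ := (hmem v').1 hv'
    have hZ : Z3 (v - v') := ⟨by rw [Pi.sub_apply, v0, w0, sub_self],
      by rw [Pi.sub_apply, v1, w1, sub_self], by rw [Pi.sub_apply, v2, w2, sub_self]⟩
    have e : ∀ l, yy (v - v') l = yy v l - yy v' l := fun _ => rfl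
    have h1 := key _ (L.sub_mem vL wL) hZ (fun l => by
      have a1 := abs_lt.1 (hlt v hv l)
      have a2 := abs_lt.1 (hlt v' hv' l)
      rw [e, abs_le]
      constructor <;> linarith)
    have h2 := z3_eq_zero hT (L.sub_mem vL wL) hZ (fun l => by
      have a1 := hlt v hv l
      have a2 := hlt v' hv' l
      have h3 : decide (|yy v l| < 1 / 2) = decide (|yy v' l| < 1 / 2) := congrFun h l
      rw [decide_eq_decide] at h3
      rw [e]
      by_cases h4 : |yy v l| < 1 / 2
      · have h5 := h3.1 h4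
        rw [abs_lt] at h4 h5 ⊢
        constructor <;> linarith
      · have h5 : ¬ |yy v' l| < 1 / 2 := fun h6 => h4 (h3.2 h6)
        have p1 : abs (|yy v l| - 3 / 4) ≤ κ := by
          rcases hpos v ((hmem v).1 hv) l with h6 | h6
          · exfalso
            rw [abs_le] at h6
            exact h4 (by linarith)
          · exact h6
        have p2 : abs (|yy v' l| - 3 / 4) ≤ κ := by
          rcases hpos v' ((hmem v').1 hv') l with h6 | h6
          · exfalso
            rw [abs_le] at h6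
            exact h5 (by linarith)
          · exact h6
        have h7 := h1 l
        rw [e] at h7
        set n : ℤ := round (yy v l - yy v' l)
        rw [abs_le] at p1 p2 h7
        rcases abs_cases (yy v l) with ⟨q1, q2⟩ | ⟨q1, q2⟩ <;>
          rcases abs_cases (yy v' l) with ⟨q3, q4⟩ | ⟨q3, q4⟩
        · rw [abs_lt]
          constructor <;> linarith
        · exfalso
          have n1 : ((1 : ℤ) : ℝ) < (n : ℝ) := by
            push_cast
            linarith
          have n2 : (n : ℝ) < ((2 : ℤ) : ℝ) := by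
            push_cast
            linarith
          have n1' : (1 : ℤ) < n := by exact_mod_cast n1
          have n2' : n < (2 : ℤ) := by exact_mod_cast n2
          omega
        · exfalso
          have n1 : ((-2 : ℤ) : ℝ) < (n : ℝ) := by
            push_cast
            linarith
          have n2 : (n : ℝ) < ((-1 : ℤ) : ℝ) := by
            push_cast
            linarith
          have n1' : (-2 : ℤ) < n := by exact_mod_cast n1
          have n2' : n < (-1 : ℤ) := by exact_mod_cast n2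
          omega
        · rw [abs_lt]
          constructor <;> linarith)
    exact sub_eq_zero.1 h2
  have hmuG : ∀ v ∈ S, mu v ≤ ∏ l, G κ (β v l) := by
    intro v hv
    refine Finset.prod_le_prod (fun l _ => by linarith [hlt v hv l]) fun l _ => ?_
    rcases hpos v ((hmem v).1 hv) l with h6 | h6
    · rw [abs_le] at h6
      have h7 : |yy v l| < 1 / 2 := by linarith
      simp only [β, G, h7, decide_true, if_true]
      linarith
    · rw [abs_le] at h6
      have h7 : ¬ |yy v l| < 1 / 2 := by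
        rw [not_lt]
        linarith
      simp only [β, G, h7, decide_false]
      norm_num
      linarith
  have hG0 : ∀ b : Fin (p + 2) → Bool, 0 ≤ ∏ l, G κ (b l) := by
    intro b
    refine Finset.prod_nonneg fun l _ => ?_
    unfold G
    split_ifs <;> linarith
  -- the mass of the bad contacts
  have hbad : ∑ v ∈ S with ¬ (β v 0 = true ∧ β v 1 = true), mu v ≤ 46 / 100 := by
    calc ∑ v ∈ S with ¬ (β v 0 = true ∧ β v 1 = true), mu v
        ≤ ∑ v ∈ S with ¬ (β v 0 = true ∧ β v 1 = true), ∏ l, G κ (β v l) :=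
          Finset.sum_le_sum fun v hv => hmuG v (Finset.mem_filter.1 hv).1
      _ = ∑ b ∈ (S.filter fun v => ¬ (β v 0 = true ∧ β v 1 = true)).image β,
            ∏ l, G κ (b l) := by
          rw [Finset.sum_image]
          intro v hv v' hv' h
          exact hβ (Finset.mem_filter.1 hv).1 (Finset.mem_filter.1 hv').1 h
      _ ≤ ∑ b : Fin (p + 2) → Bool with ¬ (b 0 = true ∧ b 1 = true), ∏ l, G κ (b l) := by
          refine Finset.sum_le_sum_of_subset_of_nonneg ?_ fun b _ _ => hG0 b
          intro b hb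
          obtain ⟨v, hv, rfl⟩ := Finset.mem_image.1 hb
          exact Finset.mem_filter.2 ⟨Finset.mem_univ _, (Finset.mem_filter.1 hv).2⟩
      _ ≤ 46 / 100 := by
          rw [bad_sum]
          exact hκ2
  have hterm : ∀ v ∈ S, mu v * my v ≤ mu v * (26 / 100) +
      if ¬ (β v 0 = true ∧ β v 1 = true) then mu v / 2 else 0 := by
    intro v hv
    have m0 := hmu0 v hv
    have h0 := hpos v ((hmem v).1 hv) 0
    have h1 := hpos v ((hmem v).1 hv) 1
    by_cases hgood : β v 0 = true ∧ β v 1 = true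
    · rw [if_neg (not_not.2 hgood), add_zero]
      refine mul_le_mul_of_nonneg_left ?_ m0
      obtain ⟨g0, g1⟩ := hgood
      have g0' : |yy v 0| < 1 / 2 := of_decide_eq_true g0
      have g1' : |yy v 1| < 1 / 2 := of_decide_eq_true g1
      refine max_le ?_ ?_
      · change |yy v 0| ≤ _
        rcases h0 with h | h <;> rw [abs_le] at h <;> linarith
      · change |yy v 1| ≤ _
        rcases h1 with h | h <;> rw [abs_le] at h <;> linarith
    · rw [if_pos hgood]
      have h2 : my v ≤ 76 / 100 := by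
        refine max_le ?_ ?_
        · change |yy v 0| ≤ _
          rcases h0 with h | h <;> rw [abs_le] at h <;> linarith
        · change |yy v 1| ≤ _
          rcases h1 with h | h <;> rw [abs_le] at h <;> linarith
      have h3 := mul_le_mul_of_nonneg_left h2 m0
      linarith
  have h1 := Finset.sum_le_sum hterm
  rw [Finset.sum_add_distrib, ← Finset.sum_mul, hmu, ← Finset.sum_filter,
    ← Finset.sum_div] at h1
  linarith

end Pool.Agent.K3h58.R6
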